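import Mathlib
import Pool.Agent.W750.Tor.Circle

/-!
# MP_c22f6b_an: upper regularity does not imply the trace inequality on tori

For every `d ≥ 3` there is a probability measure on `T^d` which is upper `α`-regular for every
`α < d` (in particular `(d - 2 + ε)`-regular for every `ε < 2`) but violates the trace inequality.
-/

set_option autoImplicit false
set_option linter.unusedSectionVars false

open MeasureTheory Filter Topology Set UnitAddTorus
open scoped ENNReal

namespace Pool.Agent.Results.MP_c22f6b_an.RegularityInsufficient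

variable {d : ℕ}

/-- The flat distance on the torus `T^d = ℝ^d / ℤ^d` induced by the Euclidean distance
(`‖x i - y i‖` is the distance of `x i` and `y i` on the circle `ℝ / ℤ`). -/
noncomputable def tdist (x y : UnitAddTorus (Fin d)) : ℝ := √(∑ i, ‖x i - y i‖ ^ 2)

/-- The ball of radius `r` about `x` in the torus. -/
def tball (x : UnitAddTorus (Fin d)) (r : ℝ) : Set (UnitAddTorus (Fin d)) := {y | tdist x y < r}

/-- The trigonometric polynomial `x ↦ ∑ a_k e^{2 π i k·x}` with the coefficients `a`. -/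
noncomputable def trigPoly (a : (Fin d → ℤ) →₀ ℂ) (x : UnitAddTorus (Fin d)) : ℂ :=
  ∑ k ∈ a.support, a k * mFourier k x

/-- All frequencies lie on the sphere of radius `√n`, so that `trigPoly a` belongs to the
eigenspace `E_λ`, `λ = √n`. -/
def OnSphere (n : ℕ) (a : (Fin d → ℤ) →₀ ℂ) : Prop := ∀ k ∈ a.support, ∑ i, k i ^ 2 = (n : ℤ)

/-- The trace inequality: `∫ |u|² dμ ≤ C ∫ |u|² dx` for all `u` in all eigenspaces `E_λ`. -/
def TraceInequality (μ : Measure (UnitAddTorus (Fin d))) : Prop :=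
  ∃ C : ℝ, ∀ (n : ℕ) (a : (Fin d → ℤ) →₀ ℂ), OnSphere n a →
    ∫ x, ‖trigPoly a x‖ ^ 2 ∂μ ≤ C * ∫ x, ‖trigPoly a x‖ ^ 2

/-- `μ` is upper `α`-regular: `μ(B_r(x)) ≤ C r^α` for all `r > 0` and all `x`. -/
def UpperRegular (μ : Measure (UnitAddTorus (Fin d))) (α : ℝ) : Prop :=
  ∃ C : ℝ, ∀ (x : UnitAddTorus (Fin d)) (r : ℝ), 0 < r → μ.real (tball x r) ≤ C * r ^ α

/-! ### Lattice points -/

theorem exists_many (hd : 3 ≤ d) (K : ℕ) : ∃ (n : ℕ) (S : Finset (Fin d → ℤ)),
    (∀ k ∈ S, ∑ i, k i ^ 2 = (n : ℤ)) ∧ K ≤ S.card := by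
  classical
  set R : ℕ := d * K with hR
  let s : Finset (Fin d → ℤ) := Fintype.piFinset fun _ => Finset.Icc (0 : ℤ) R
  have hs : s.card = (R + 1) ^ d := by
    simp [s, Fintype.card_piFinset]
  let t : Finset ℕ := Finset.range (d * R ^ 2 + 1)
  let f : (Fin d → ℤ) → ℕ := fun k => (∑ i, k i ^ 2).toNat
  have hnn : ∀ k : Fin d → ℤ, 0 ≤ ∑ i, k i ^ 2 := fun k => Finset.sum_nonneg fun i _ => sq_nonneg _
  have hf : ∀ k ∈ s, f k ∈ t := by
    intro k hk
    rw [Fintype.mem_piFinset] at hk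
    rw [Finset.mem_range, Nat.lt_succ_iff]
    have h1 : ∑ i, k i ^ 2 ≤ ∑ _i : Fin d, (R : ℤ) ^ 2 := by
      refine Finset.sum_le_sum fun i _ => ?_
      have h2 := Finset.mem_Icc.1 (hk i)
      exact pow_le_pow_left₀ h2.1 h2.2 2
    rw [Finset.sum_const, Finset.card_univ, Fintype.card_fin, nsmul_eq_mul] at h1
    have h3 : ((f k : ℕ) : ℤ) = ∑ i, k i ^ 2 := Int.toNat_of_nonneg (hnn k)
    exact_mod_cast h3.le.trans h1
  have ht : t.Nonempty := ⟨0, by simp [t]⟩
  have hcard : t.card * K ≤ s.card := by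
    rw [hs, Finset.card_range]
    have h1 : (d * R ^ 2 + 1) * K ≤ d * (R + 1) ^ 2 * K := by
      refine Nat.mul_le_mul_right _ ?_
      nlinarith
    have h2 : d * (R + 1) ^ 2 * K = (R + 1) ^ 2 * R := by rw [hR]; ring
    have h3 : (R + 1) ^ 2 * R ≤ (R + 1) ^ 3 := by
      rw [pow_succ (R + 1) 2]
      exact Nat.mul_le_mul_left _ (Nat.le_succ R)
    have h4 : (R + 1) ^ 3 ≤ (R + 1) ^ d := Nat.pow_le_pow_right (Nat.succ_pos _) hd
    omega
  obtain ⟨n, -, hn⟩ := Finset.exists_le_card_fiber_of_mul_le_card_of_maps_to hf ht hcard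
  refine ⟨n, s.filter fun k => f k = n, ?_, hn⟩
  intro k hk
  have h1 := (Finset.mem_filter.1 hk).2
  have h3 : ((f k : ℕ) : ℤ) = ∑ i, k i ^ 2 := Int.toNat_of_nonneg (hnn k)
  rw [← h3, h1]

/-! ### Trigonometric polynomials with coefficients one -/

/-- coefficients one on `T` -/
noncomputable def ind (T : Finset (Fin d → ℤ)) : (Fin d → ℤ) →₀ ℂ :=
  Finsupp.indicator T fun _ _ => 1

theorem ind_apply {T : Finset (Fin d → ℤ)} {k : Fin d → ℤ} (hk : k ∈ T) : ind T k = 1 := by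
  rw [ind, Finsupp.indicator_of_mem hk]

theorem support_ind (T : Finset (Fin d → ℤ)) : (ind T).support = T := by
  apply Finset.Subset.antisymm
  · exact Finsupp.support_indicator_subset T _
  · intro k hk
    rw [Finsupp.mem_support_iff, ind_apply hk]
    exact one_ne_zero

theorem trigPoly_ind (T : Finset (Fin d → ℤ)) (x : UnitAddTorus (Fin d)) :
    trigPoly (ind T) x = ∑ k ∈ T, mFourier k x := by
  rw [trigPoly, support_ind]
  exact Finset.sum_congr rfl fun k hk => by rw [ind_apply hk, one_mul]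

theorem continuous_trigPoly (a : (Fin d → ℤ) →₀ ℂ) : Continuous (trigPoly a) := by
  unfold trigPoly
  fun_prop

theorem integrable_sq (μ : Measure (UnitAddTorus (Fin d))) [IsFiniteMeasure μ]
    (a : (Fin d → ℤ) →₀ ℂ) : Integrable (fun x => ‖trigPoly a x‖ ^ 2) μ := by
  have hc : Continuous fun x => ‖trigPoly a x‖ ^ 2 := ((continuous_trigPoly a).norm).pow 2
  have h := (ContinuousMap.mk _ hc).continuous.integrable_of_hasCompactSupport (μ := μ)
    (HasCompactSupport.of_compactSpace _)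
  exact h

theorem integral_fourier {n : ℤ} (hn : n ≠ 0) :
    ∫ x : UnitAddCircle, (fourier n x : ℂ) = 0 :=
  integral_eq_zero_of_add_right_eq_neg (μ := (volume : Measure UnitAddCircle))
    (g := ((1 / 2 / n : ℝ) : UnitAddCircle)) (fun x => fourier_add_half_inv_index hn one_pos x)

theorem integral_mFourier (n : Fin d → ℤ) :
    ∫ x : UnitAddTorus (Fin d), (mFourier n x : ℂ) = if n = 0 then 1 else 0 := by
  have h1 : ∫ x : UnitAddTorus (Fin d), (mFourier n x : ℂ) =
      ∏ i, ∫ x : UnitAddCircle, (fourier (n i) x : ℂ) :=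
    integral_fintype_prod_volume_eq_prod (fun i => fun x : UnitAddCircle => (fourier (n i) x : ℂ))
  rw [h1]
  split_ifs with h
  · refine Finset.prod_eq_one fun i _ => ?_
    rw [h]
    have e : (fun x : UnitAddCircle => (fourier ((0 : Fin d → ℤ) i) x : ℂ)) = fun _ => 1 := by
      funext x
      simp
    rw [e, integral_const, Measure.real, UnitAddCircle.measure_univ]
    simp
  · obtain ⟨i, hi⟩ := Function.ne_iff.1 h
    exact Finset.prod_eq_zero (Finset.mem_univ i) (integral_fourier hi)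

theorem integral_sq_ind (T : Finset (Fin d → ℤ)) :
    ∫ x, ‖trigPoly (ind T) x‖ ^ 2 = (T.card : ℝ) := by
  have h1 : ∀ x : UnitAddTorus (Fin d), ((‖trigPoly (ind T) x‖ ^ 2 : ℝ) : ℂ) =
      ∑ k ∈ T, ∑ l ∈ T, (mFourier (l + (-k)) x : ℂ) := by
    intro x
    rw [trigPoly_ind]
    push_cast
    rw [← Complex.conj_mul', map_sum, Finset.sum_mul_sum]
    refine Finset.sum_congr rfl fun k _ => Finset.sum_congr rfl fun l _ => ?_
    rw [mFourier_add, mFourier_neg, mul_comm]
  have h2 : ((∫ x, ‖trigPoly (ind T) x‖ ^ 2 : ℝ) : ℂ) = (T.card : ℂ) := by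
    rw [← integral_complex_ofReal]
    simp_rw [h1]
    have hint : ∀ n : Fin d → ℤ, Integrable (fun x : UnitAddTorus (Fin d) => (mFourier n x : ℂ)) := by
      intro n
      exact (mFourier n).continuous.integrable_of_hasCompactSupport
        (HasCompactSupport.of_compactSpace _)
    rw [integral_finsetSum _ (fun k _ => integrable_finsetSum _ fun l _ => hint _)]
    have h3 : ∀ k ∈ T, ∫ x, ∑ l ∈ T, (mFourier (l + (-k)) x : ℂ) = 1 := by
      intro k hk
      rw [integral_finsetSum _ (fun l _ => hint _)]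
      simp_rw [integral_mFourier]
      have h4 : ∀ l, (l + -k = 0) ↔ (k = l) := by
        intro l
        rw [add_neg_eq_zero]
        exact eq_comm
      simp_rw [h4]
      rw [Finset.sum_ite_eq, if_pos hk]
    rw [Finset.sum_congr rfl h3, Finset.sum_const, nsmul_eq_mul, mul_one]
  exact_mod_cast h2

/-! ### The periodised concentration -/

open Pool.Agent.W750.Tor

theorem norm_toCircle_sub_one_le (y : UnitAddCircle) :
    ‖((AddCircle.toCircle y : Circle) : ℂ) - 1‖ ≤ 2 * Real.pi * ‖y‖ := by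
  obtain ⟨t, rfl⟩ := QuotientAddGroup.mk_surjective y
  have h0 : ((t : ℝ) : UnitAddCircle) = ((t - round t : ℝ) : UnitAddCircle) := by
    rw [AddCircle.coe_sub]
    have : ((round t : ℝ) : UnitAddCircle) = 0 := by
      have h2 : ((round t : ℝ) : UnitAddCircle) = (((round t : ℤ) • (1 : ℝ) : ℝ) : UnitAddCircle) := by
        simp
      rw [h2, AddCircle.coe_zsmul, AddCircle.coe_period, smul_zero]
    rw [this, sub_zero]
  have h1 : ‖((t : ℝ) : UnitAddCircle)‖ = |t - round t| := UnitAddCircle.norm_eq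
  have h2 : ((AddCircle.toCircle ((t : ℝ) : UnitAddCircle) : Circle) : ℂ) =
      Complex.exp (Complex.I * ((2 * Real.pi * (t - round t) : ℝ) : ℂ)) := by
    rw [h0, AddCircle.toCircle_apply_mk, Circle.coe_exp]
    congr 1
    push_cast
    ring
  show ‖((AddCircle.toCircle ((t : ℝ) : UnitAddCircle) : Circle) : ℂ) - 1‖ ≤
    2 * Real.pi * ‖((t : ℝ) : UnitAddCircle)‖
  rw [h2, h1]
  refine Real.norm_exp_I_mul_ofReal_sub_one_le.trans ?_
  rw [Real.norm_eq_abs, abs_mul, abs_of_pos (by positivity : (0 : ℝ) < 2 * Real.pi)]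

theorem norm_prod_sub_one_le {ι : Type*} (s : Finset ι) (z : ι → ℂ) (hz : ∀ i, ‖z i‖ = 1) :
    ‖∏ i ∈ s, z i - 1‖ ≤ ∑ i ∈ s, ‖z i - 1‖ := by
  classical
  induction s using Finset.induction_on with
  | empty => simp
  | insert a s ha ih =>
    rw [Finset.prod_insert ha, Finset.sum_insert ha]
    have e : z a * ∏ i ∈ s, z i - 1 = z a * (∏ i ∈ s, z i - 1) + (z a - 1) := by ring
    rw [e]
    refine (norm_add_le _ _).trans ?_
    rw [norm_mul, hz a, one_mul, add_comm]
    gcongr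

theorem norm_mFourier_sub_one_le (M : ℕ) (k : Fin d → ℤ) (x : UnitAddTorus (Fin d)) (Λ ρ : ℝ)
    (hΛ : ∀ i, |(k i : ℝ)| ≤ Λ) (hρ : ∀ i, ‖M • x i‖ ≤ ρ) :
    ‖mFourier (M • k) x - 1‖ ≤ d * (2 * Real.pi * (Λ * ρ)) := by
  have h1 : mFourier (M • k) x = ∏ i, fourier (M * k i) (x i) := by
    simp [mFourier]
  rw [h1]
  refine (norm_prod_sub_one_le _ _ (fun i => ?_)).trans ?_
  · rw [fourier_apply, Circle.norm_coe]
  · have h2 : ∀ i, ‖(fourier (M * k i) (x i) : ℂ) - 1‖ ≤ 2 * Real.pi * (Λ * ρ) := by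
      intro i
      have h3 : (fourier (M * k i) (x i) : ℂ) = ((AddCircle.toCircle (k i • (M • x i)) : Circle) : ℂ) := by
        rw [fourier_apply, mul_comm (M : ℤ), mul_smul, natCast_zsmul]
      rw [h3]
      refine (norm_toCircle_sub_one_le _).trans ?_
      have h4 : ‖k i • (M • x i)‖ ≤ Λ * ρ := by
        refine (norm_zsmul_le _ _).trans ?_
        have h5 : ‖(k i : ℤ)‖ = |(k i : ℝ)| := rfl
        exact mul_le_mul (h5.le.trans (hΛ i)) (hρ i) (norm_nonneg _) ((abs_nonneg _).trans (hΛ i))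
      gcongr
    calc ∑ i, ‖(fourier (M * k i) (x i) : ℂ) - 1‖ ≤ ∑ _i : Fin d, 2 * Real.pi * (Λ * ρ) :=
          Finset.sum_le_sum fun i _ => h2 i
      _ = d * (2 * Real.pi * (Λ * ρ)) := by
          rw [Finset.sum_const, Finset.card_univ, Fintype.card_fin, nsmul_eq_mul]

/-- the product of the periodised intervals -/
noncomputable def mu (d M : ℕ) (ρ : ℝ) : Measure (UnitAddTorus (Fin d)) :=
  Measure.pi fun _ => nu M ρ

theorem isProb_mu (M : ℕ) (hM : 1 ≤ M) (ρ : ℝ) (h0 : 0 < ρ) (h1 : ρ ≤ 1 / 2) :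
    IsProbabilityMeasure (mu d M ρ) := by
  have := isProb_nu M hM ρ h0 h1
  unfold mu
  infer_instance

theorem ae_mu (M : ℕ) (hM : 1 ≤ M) (ρ : ℝ) (h0 : 0 < ρ) (h1 : ρ ≤ 1 / 2) :
    ∀ᵐ x ∂(mu d M ρ), ∀ i, ‖M • x i‖ ≤ ρ := by
  have := isProb_nu M hM ρ h0 h1
  rw [ae_all_iff]
  intro i
  exact (Measure.tendsto_eval_ae_ae (μ := fun _ : Fin d => nu M ρ) (i := i)).eventually (ae_nu M ρ)

theorem tball_subset (x : UnitAddTorus (Fin d)) (r : ℝ) :
    tball x r ⊆ Set.pi univ fun i => Metric.closedBall (x i) r := by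
  intro y hy i _
  rw [Metric.mem_closedBall, dist_comm, dist_eq_norm]
  have h1 : ‖x i - y i‖ ≤ tdist x y := by
    rw [tdist]
    apply Real.le_sqrt_of_sq_le
    exact Finset.single_le_sum (f := fun i => ‖x i - y i‖ ^ 2) (fun i _ => sq_nonneg _)
      (Finset.mem_univ i)
  exact h1.trans (le_of_lt hy)

theorem mu_tball_le (M : ℕ) (hM : 1 ≤ M) (ρ : ℝ) (h0 : 0 < ρ) (h1 : ρ ≤ 1 / 2)
    (x : UnitAddTorus (Fin d)) (r : ℝ) (hr : 0 < r) :
    mu d M ρ (tball x r) ≤ ENNReal.ofReal ((2 * r + 1 / M) ^ d) := by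
  have := isProb_nu M hM ρ h0 h1
  have hM' : (0 : ℝ) < M := by exact_mod_cast hM
  refine (measure_mono (tball_subset x r)).trans ?_
  rw [mu, Measure.pi_pi]
  calc ∏ i, nu M ρ (Metric.closedBall (x i) r) ≤ ∏ _i : Fin d, ENNReal.ofReal (2 * r + 1 / M) :=
        Finset.prod_le_prod' fun i _ => nu_closedBall_le M hM ρ h0 h1 _ r hr.le
    _ = ENNReal.ofReal ((2 * r + 1 / M) ^ d) := by
        rw [Finset.prod_const, Finset.card_univ, Fintype.card_fin, ENNReal.ofReal_pow (by positivity)]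

theorem mu_tball_le' (M : ℕ) (hM : 1 ≤ M) (ρ : ℝ) (h0 : 0 < ρ) (h1 : ρ ≤ 1 / 2)
    (x : UnitAddTorus (Fin d)) (r : ℝ) (hr : 0 < r) :
    mu d M ρ (tball x r) ≤ ENNReal.ofReal ((r / ρ) ^ d) := by
  have := isProb_nu M hM ρ h0 h1
  refine (measure_mono (tball_subset x r)).trans ?_
  rw [mu, Measure.pi_pi]
  calc ∏ i, nu M ρ (Metric.closedBall (x i) r) ≤ ∏ _i : Fin d, ENNReal.ofReal (r / ρ) :=
        Finset.prod_le_prod' fun i _ => nu_closedBall_le' M ρ h0 _ r
    _ = ENNReal.ofReal ((r / ρ) ^ d) := by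
        rw [Finset.prod_const, Finset.card_univ, Fintype.card_fin, ENNReal.ofReal_pow (by positivity)]

/-- the eigenfunctions concentrate on the periodised box -/
theorem integral_ge (M : ℕ) (hM : 1 ≤ M) (ρ : ℝ) (h0 : 0 < ρ) (h1 : ρ ≤ 1 / 2)
    (S : Finset (Fin d → ℤ)) (Λ : ℝ) (hΛ : ∀ k ∈ S, ∀ i, |(k i : ℝ)| ≤ Λ)
    (hΛρ : d * (2 * Real.pi * (Λ * ρ)) ≤ 1 / 2) :
    (S.card : ℝ) ^ 2 / 4 ≤
      ∫ x, ‖trigPoly (ind (S.image fun k => M • k)) x‖ ^ 2 ∂(mu d M ρ) := by
  classical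
  have hp := isProb_mu (d := d) M hM ρ h0 h1
  have hinj : Function.Injective fun k : Fin d → ℤ => M • k := by
    intro k l h
    funext i
    have h2 := congrFun h i
    simp only [Pi.smul_apply, nsmul_eq_mul] at h2
    exact mul_left_cancel₀ (by exact_mod_cast (by omega : M ≠ 0)) h2
  have hconst : ∫ _x, (S.card : ℝ) ^ 2 / 4 ∂(mu d M ρ) = (S.card : ℝ) ^ 2 / 4 := by
    rw [integral_const]
    simp
  rw [← hconst]
  refine integral_mono_ae (integrable_const _) (integrable_sq _ _) ?_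
  filter_upwards [ae_mu M hM ρ h0 h1] with x hx
  rw [trigPoly_ind, Finset.sum_image (fun a _ b _ h => hinj h)]
  have h2 : ∀ k ∈ S, 1 / 2 ≤ (mFourier (M • k) x).re := by
    intro k hk
    have h3 := (norm_mFourier_sub_one_le M k x Λ ρ (hΛ k hk) hx).trans hΛρ
    have h4 := (Complex.abs_re_le_norm (mFourier (M • k) x - 1)).trans h3
    rw [Complex.sub_re, Complex.one_re] at h4
    linarith [(abs_le.1 h4).1]
  have h5 : (S.card : ℝ) / 2 ≤ ‖∑ k ∈ S, mFourier (M • k) x‖ := by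
    refine le_trans ?_ (Complex.re_le_norm _)
    rw [Complex.re_sum]
    calc (S.card : ℝ) / 2 = ∑ _k ∈ S, (1 / 2 : ℝ) := by
          rw [Finset.sum_const, nsmul_eq_mul]; ring
      _ ≤ ∑ k ∈ S, (mFourier (M • k) x).re := Finset.sum_le_sum h2
  have h6 := pow_le_pow_left₀ (by positivity) h5 2
  calc (S.card : ℝ) ^ 2 / 4 = ((S.card : ℝ) / 2) ^ 2 := by ring
    _ ≤ _ := h6

theorem onSphere_image (M : ℕ) (n : ℕ) (S : Finset (Fin d → ℤ)) (hS : ∀ k ∈ S, ∑ i, k i ^ 2 = (n : ℤ)) :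
    OnSphere (M ^ 2 * n) (ind (S.image fun k => M • k)) := by
  classical
  intro k hk
  rw [support_ind] at hk
  obtain ⟨l, hl, rfl⟩ := Finset.mem_image.1 hk
  have h := hS l hl
  simp only [Pi.smul_apply, nsmul_eq_mul, mul_pow]
  rw [← Finset.mul_sum, h]
  push_cast
  ring

/-- **Negative answer to Q1 of MP_c22f6b_an**, for every dimension `d ≥ 3` and every `ε < 2`.
There is a single probability measure on `T^d` which is upper `α`-regular for all `α < d`, and even
satisfies `μ(B_r(x)) ≤ C r^d max(1, θ(r))` for a prescribed function `θ` tending to infinity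
arbitrarily slowly as `r → 0`, but which violates the trace inequality. -/
theorem result (d : ℕ) (hd : 3 ≤ d) (θ : ℝ → ℝ) (hθ : Tendsto θ (𝓝[>] 0) atTop) :
    ∃ μ : Measure (UnitAddTorus (Fin d)), IsProbabilityMeasure μ ∧
      (∀ α : ℝ, 0 < α → α < d → UpperRegular μ α) ∧
      (∃ C : ℝ, ∀ (x : UnitAddTorus (Fin d)) (r : ℝ), 0 < r →
        μ.real (tball x r) ≤ C * (r ^ d * max 1 (θ r))) ∧
      ¬ TraceInequality μ := by
  classical
  -- the gauge
  let θ' : ℝ → ℝ := fun r => min (θ r) (Real.log (1 / r))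
  have hθ' : Tendsto θ' (𝓝[>] 0) atTop := by
    have h1 : Tendsto (fun r : ℝ => Real.log (1 / r)) (𝓝[>] 0) atTop := by
      have h2 : Tendsto (fun r : ℝ => 1 / r) (𝓝[>] 0) atTop := by
        simpa using tendsto_inv_nhdsGT_zero (𝕜 := ℝ)
      exact Real.tendsto_log_atTop.comp h2
    rw [tendsto_atTop] at *
    intro b
    filter_upwards [hθ b, h1 b] with r h2 h3
    exact le_min h2 h3
  -- lattice points
  choose n S hS hcard using fun j : ℕ => exists_many hd (4 * 4 ^ (j + 1))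
  -- bounds for the coordinates
  have hbd : ∀ j, ∃ Λ : ℝ, 0 ≤ Λ ∧ ∀ k ∈ S j, ∀ i, |(k i : ℝ)| ≤ Λ := by
    intro j
    obtain ⟨B, hB⟩ := ((S j ×ˢ (Finset.univ : Finset (Fin d))).image
      (fun p => |(p.1 p.2 : ℝ)|)).exists_le
    refine ⟨max B 0, le_max_right _ _, fun k hk i => le_trans ?_ (le_max_left _ _)⟩
    exact hB _ (Finset.mem_image.2 ⟨(k, i), Finset.mem_product.2 ⟨hk, Finset.mem_univ i⟩, rfl⟩)
  choose Λ hΛ0 hΛ using hbd
  let ρ : ℕ → ℝ := fun j => 1 / (16 * (d * (Λ j + 1)))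
  have hd0 : (1 : ℝ) ≤ d := by exact_mod_cast (by omega : 1 ≤ d)
  have hρ0 : ∀ j, 0 < ρ j := by
    intro j
    have := hΛ0 j
    positivity
  have hρ1 : ∀ j, ρ j ≤ 1 / 2 := by
    intro j
    have h1 := hΛ0 j
    have h2 : (1 : ℝ) ≤ d * (Λ j + 1) := by nlinarith
    apply one_div_le_one_div_of_le (by norm_num)
    linarith
  have hΛρ : ∀ j, d * (2 * Real.pi * (Λ j * ρ j)) ≤ 1 / 2 := by
    intro j
    have h1 := hΛ0 j
    have hpi : Real.pi ≤ 4 := Real.pi_le_four
    have h3 : d * (2 * Real.pi * (Λ j * ρ j)) = (2 * Real.pi) * (Λ j / (16 * (Λ j + 1))) := by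
      simp only [ρ]
      field_simp
    rw [h3]
    have h4 : Λ j / (16 * (Λ j + 1)) ≤ 1 / 16 := by
      rw [div_le_div_iff₀ (by positivity) (by norm_num)]
      linarith
    have h5 : 0 ≤ Λ j / (16 * (Λ j + 1)) := by positivity
    nlinarith [Real.pi_pos]
  -- the dilation factors
  have hδ : ∀ j, ∃ M : ℕ, 1 ≤ M ∧ ∀ r : ℝ, 0 < r → r < 1 / M → (1 / ρ j) ^ d ≤ θ' r := by
    intro j
    have h1 : ∀ᶠ r in 𝓝[>] (0 : ℝ), (1 / ρ j) ^ d ≤ θ' r := hθ'.eventually_ge_atTop _
    obtain ⟨δ, hδ0, hδ⟩ := mem_nhdsGT_iff_exists_Ioo_subset.1 h1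
    have hδ0' : (0 : ℝ) < δ := hδ0
    refine ⟨⌈1 / δ⌉₊ + 1, by omega, fun r hr hr2 => ?_⟩
    refine hδ ⟨hr, hr2.trans ?_⟩
    rw [div_lt_iff₀ (by positivity)]
    have h2 := Nat.le_ceil (1 / δ)
    have h3 : 1 / δ * δ = 1 := by field_simp
    push_cast
    nlinarith
  choose M hM hMθ using hδ
  -- the measures
  let m : ℕ → Measure (UnitAddTorus (Fin d)) := fun j => mu d (M j) (ρ j)
  have hmp : ∀ j, IsProbabilityMeasure (m j) := fun j => isProb_mu (M j) (hM j) (ρ j) (hρ0 j) (hρ1 j)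
  have hmreg : ∀ j (x : UnitAddTorus (Fin d)) (r : ℝ), 0 < r →
      m j (tball x r) ≤ ENNReal.ofReal (3 ^ d * (r ^ d * max 1 (θ' r))) := by
    intro j x r hr
    have hMj : (0 : ℝ) < M j := by exact_mod_cast hM j
    rcases le_or_gt (1 / (M j : ℝ)) r with h | h
    · refine (mu_tball_le (M j) (hM j) (ρ j) (hρ0 j) (hρ1 j) x r hr).trans ?_
      refine ENNReal.ofReal_le_ofReal ?_
      calc (2 * r + 1 / (M j : ℝ)) ^ d ≤ (3 * r) ^ d :=
            pow_le_pow_left₀ (by positivity) (by linarith) d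
        _ = 3 ^ d * (r ^ d * 1) := by rw [mul_pow, mul_one]
        _ ≤ 3 ^ d * (r ^ d * max 1 (θ' r)) := by
            gcongr
            exact le_max_left _ _
    · refine (mu_tball_le' (M j) (hM j) (ρ j) (hρ0 j) (hρ1 j) x r hr).trans ?_
      refine ENNReal.ofReal_le_ofReal ?_
      have h1 := hMθ j r hr h
      calc (r / ρ j) ^ d = r ^ d * (1 / ρ j) ^ d := by rw [← mul_pow]; congr 1; ring
        _ ≤ r ^ d * max 1 (θ' r) := by
            gcongr
            exact h1.trans (le_max_right _ _)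
        _ = 1 * (r ^ d * max 1 (θ' r)) := (one_mul _).symm
        _ ≤ 3 ^ d * (r ^ d * max 1 (θ' r)) := by
            gcongr
            exact one_le_pow₀ (by norm_num)
  let w : ℕ → ℝ≥0∞ := fun j => 2⁻¹ ^ (j + 1)
  have hw : ∑' j, w j = 1 := by
    simp only [w]
    rw [ENNReal.tsum_geometric_add_one, ENNReal.one_sub_inv_two, inv_inv]
    exact ENNReal.inv_mul_cancel (by norm_num) (by norm_num)
  let μ : Measure (UnitAddTorus (Fin d)) := Measure.sum fun j => w j • m j
  have hμapply : ∀ B : Set (UnitAddTorus (Fin d)), MeasurableSet B → μ B = ∑' j, w j * m j B := by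
    intro B hB
    rw [Measure.sum_apply _ hB]
    rfl
  have hμp : IsProbabilityMeasure μ := by
    refine ⟨?_⟩
    rw [hμapply _ MeasurableSet.univ]
    simp only [measure_univ, mul_one]
    exact hw
  have hball : ∀ (x : UnitAddTorus (Fin d)) (r : ℝ), MeasurableSet (tball x r) := by
    intro x r
    have hc : Continuous fun y => tdist x y := by
      unfold tdist
      fun_prop
    exact (isOpen_lt hc continuous_const).measurableSet
  have hreg : ∀ (x : UnitAddTorus (Fin d)) (r : ℝ), 0 < r →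
      μ.real (tball x r) ≤ 3 ^ d * (r ^ d * max 1 (θ' r)) := by
    intro x r hr
    rw [Measure.real]
    refine ENNReal.toReal_le_of_le_ofReal (by positivity) ?_
    rw [hμapply _ (hball x r)]
    calc ∑' j, w j * m j (tball x r) ≤
          ∑' j, w j * ENNReal.ofReal (3 ^ d * (r ^ d * max 1 (θ' r))) :=
          ENNReal.tsum_le_tsum fun j => mul_le_mul_right (hmreg j x r hr) _
      _ = ENNReal.ofReal (3 ^ d * (r ^ d * max 1 (θ' r))) := by
          rw [ENNReal.tsum_mul_right, hw, one_mul]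
  refine ⟨μ, hμp, ?_, ⟨3 ^ d, fun x r hr => ?_⟩, ?_⟩
  · -- regularity of every order below `d`
    intro α hα0 hα
    have hε : 0 < (d : ℝ) - α := by linarith
    refine ⟨3 ^ d * (1 + 1 / (d - α)), fun x r hr => ?_⟩
    rcases le_or_gt r 1 with h1 | h1
    · refine (hreg x r hr).trans ?_
      rw [mul_assoc]
      refine mul_le_mul_of_nonneg_left ?_ (by positivity)
      have h2 : Real.log (1 / r) ≤ (1 / r) ^ ((d : ℝ) - α) / (d - α) :=
        Real.log_le_rpow_div (by positivity) hε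
      have h3 : (1 / r) ^ ((d : ℝ) - α) = r ^ α / r ^ d := by
        rw [one_div, Real.inv_rpow hr.le, ← Real.rpow_neg hr.le, neg_sub, Real.rpow_sub hr,
          Real.rpow_natCast]
      have h4 : r ^ d ≤ r ^ α := by
        rw [← Real.rpow_natCast]
        exact Real.rpow_le_rpow_of_exponent_ge hr h1 hα.le
      have h5 : r ^ d * max 1 (θ' r) ≤ r ^ d * (1 + (r ^ α / r ^ d) / (d - α)) := by
        gcongr
        rw [← h3]
        have h6 : 0 ≤ (1 / r) ^ ((d : ℝ) - α) / (d - α) := by positivity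
        refine max_le (by linarith) ?_
        exact (min_le_right _ _).trans (h2.trans (by linarith))
      refine h5.trans ?_
      have h7 : r ^ d * (1 + (r ^ α / r ^ d) / (d - α)) = r ^ d + r ^ α / (d - α) := by
        field_simp
      rw [h7]
      have h8 : (1 + 1 / ((d : ℝ) - α)) * r ^ α = r ^ α + r ^ α / (d - α) := by ring
      rw [h8]
      linarith
    · have h2 : μ.real (tball x r) ≤ 1 := measureReal_le_one
      have h3 : (1 : ℝ) ≤ r ^ α := Real.one_le_rpow h1.le hα0.le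
      have h4 : (1 : ℝ) ≤ 3 ^ d * (1 + 1 / (d - α)) := by
        have h5 : (1 : ℝ) ≤ 3 ^ d := one_le_pow₀ (by norm_num)
        have h6 : (0 : ℝ) ≤ 1 / (d - α) := by positivity
        nlinarith
      nlinarith
  · refine (hreg x r hr).trans ?_
    gcongr
    exact min_le_left _ _
  · -- failure of the trace inequality
    rintro ⟨C, hC⟩
    obtain ⟨j, hj⟩ := exists_nat_gt C
    have h1 := hC _ _ (onSphere_image (M j) (n j) (S j) (hS j))
    have hinj : Function.Injective fun k : Fin d → ℤ => M j • k := by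
      intro k l h
      funext i
      have h2 := congrFun h i
      simp only [Pi.smul_apply, nsmul_eq_mul] at h2
      have h3 := hM j
      exact mul_left_cancel₀ (by exact_mod_cast (by omega : M j ≠ 0)) h2
    rw [integral_sq_ind, Finset.card_image_of_injective _ hinj] at h1
    have h2 := integral_ge (M j) (hM j) (ρ j) (hρ0 j) (hρ1 j) (S j) (Λ j) (hΛ j) (hΛρ j)
    have hle : w j • m j ≤ μ := Measure.le_sum (fun j => w j • m j) j
    have h3 : ∫ x, ‖trigPoly (ind ((S j).image fun k => M j • k)) x‖ ^ 2 ∂(w j • m j) ≤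
        ∫ x, ‖trigPoly (ind ((S j).image fun k => M j • k)) x‖ ^ 2 ∂μ :=
      integral_mono_measure hle (Eventually.of_forall fun x => sq_nonneg _) (integrable_sq μ _)
    rw [integral_smul_measure, smul_eq_mul] at h3
    have hwj : (w j).toReal = (1 / 2) ^ (j + 1) := by
      simp [w]
    rw [hwj] at h3
    have h4 : (1 / 2 : ℝ) ^ (j + 1) * ((S j).card ^ 2 / 4) ≤ C * (S j).card := by
      refine le_trans ?_ (h3.trans h1)
      exact mul_le_mul_of_nonneg_left h2 (by positivity)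
    have h5 : (4 * 4 ^ (j + 1) : ℝ) ≤ (S j).card := by exact_mod_cast hcard j
    have h6 : (0 : ℝ) < (S j).card := lt_of_lt_of_le (by positivity) h5
    have h7 : (1 / 2 : ℝ) ^ (j + 1) * ((S j).card / 4) ≤ C := by
      have h8 : (1 / 2 : ℝ) ^ (j + 1) * ((S j).card ^ 2 / 4) =
          ((1 / 2 : ℝ) ^ (j + 1) * ((S j).card / 4)) * (S j).card := by ring
      rw [h8] at h4
      exact le_of_mul_le_mul_right h4 h6
    have h9 : (2 : ℝ) ^ (j + 1) ≤ (1 / 2 : ℝ) ^ (j + 1) * ((S j).card / 4) := by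
      calc (2 : ℝ) ^ (j + 1) = (1 / 2 : ℝ) ^ (j + 1) * ((4 * 4 ^ (j + 1)) / 4) := by
            rw [mul_div_cancel_left₀ _ (by norm_num : (4 : ℝ) ≠ 0), ← mul_pow]
            norm_num
        _ ≤ _ := by gcongr
    have h10 : (j : ℝ) < 2 ^ (j + 1) := by
      have h11 : j + 1 < 2 ^ (j + 1) := Nat.lt_two_pow_self
      have h12 : ((j + 1 : ℕ) : ℝ) < ((2 ^ (j + 1) : ℕ) : ℝ) := by exact_mod_cast h11
      push_cast at h12
      linarith
    linarith

end Pool.Agent.Results.MP_c22f6b_an.RegularityInsufficient
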